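import Pool.Agent.Results.MP_0bf1d2_nt.EveryNLargeModuli

/-!
# Prime triplets in all intervals, in residue classes to large moduli

`(p, q, p + 6)`, `q = p + 2` or `p + 4`, are prime triplets.

(1) For every set `S` of first elements `p` of prime triplets and ALL intervals `(u, u + H]`, with thresholds which depend
on `H` only (`u` may be arbitrarily large): the elements of `S` in the interval are distributed among the residue
classes to moduli `q`, `q` up to `δ H / log³ H`, as their distribution modulo a bounded divisor `gcd(q, P)` of `q`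
predicts, in mean square.

(2) For every sequence of intervals the law of prime triplets in fixed residue classes (asymptotic formula with
any main terms) is equivalent to the mean square law for moduli up to `δ H / log³ H`, and to the mean square law at
one arbitrarily slowly growing scale.

Method: the large sieve for sifted sets at arbitrary well-spaced points and with arbitrary bounded coefficients.
No unproved hypothesis is made.
-/

set_option autoImplicit false

namespace Pool.Agent.Results.MP_dddec0_nt.EveryIntervalLargeModuli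

open Filter Topology

section Definitions

/-- The first elements of prime triplets: `p` and `p + 6` are prime, and `p + 2` or `p + 4` is prime. -/
def triplets : Set ℕ := {p : ℕ | p.Prime ∧ (p + 6).Prime ∧ ((p + 2).Prime ∨ (p + 4).Prime)}

/-- The number of the `p ∈ S` with `u < p ≤ u + H` and `p ≡ a` modulo `q`. -/
noncomputable def count (S : Set ℕ) (u H q a : ℕ) : ℝ :=
  (Set.ncard {p : ℕ | p ∈ S ∧ u < p ∧ p ≤ u + H ∧ p ≡ a [MOD q]} : ℝ)

/-- `H / log³ H`. -/
noncomputable def size (H : ℕ) : ℝ := (H : ℝ) / Real.log H ^ 3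

/-- The sum over all classes to all moduli `Q ≤ q < 2 Q` of the squares of the differences of the number of
the elements of `S` in the interval and in the class modulo `q` and the proportion `g / q` of the number of those
in the class modulo `g = gcd(q, P)`. -/
noncomputable def relative (S : Set ℕ) (u H P Q : ℕ) : ℝ :=
  ∑ q ∈ Finset.Ico Q (2 * Q), ∑ a ∈ Finset.range q,
    (count S u H q a - (Nat.gcd q P / q : ℝ) * count S u H (Nat.gcd q P) a) ^ 2

/-- The numbers `c(q, a)`, `0 ≤ a < q`, are consistent: `c(q, a)` is the sum of `c(q', a')` over the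
classes `a'` modulo the multiple `q'` of `q` in the class `a` modulo `q`. -/
def Consistent (c : ℕ → ℕ → ℝ) : Prop :=
  ∀ q q' a : ℕ, 1 ≤ q' → q ∣ q' → a < q →
    c q a = ∑ b ∈ (Finset.range q').filter (fun b => b ≡ a [MOD q]), c q' b

/-- The same for the differences to `(g / q) c_n(g, a)`, in the `n`-th interval `(u_n, u_n + H_n]`. -/
noncomputable def deviation (S : ℕ → Set ℕ) (u H : ℕ → ℕ) (c : ℕ → ℕ → ℕ → ℝ) (n P Q : ℕ) : ℝ :=
  ∑ q ∈ Finset.Ico Q (2 * Q), ∑ a ∈ Finset.range q,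
    (count (S n) (u n) (H n) q a - (Nat.gcd q P / q : ℝ) * c n (Nat.gcd q P) (a % Nat.gcd q P)) ^ 2

variable (S : ℕ → Set ℕ) (u H : ℕ → ℕ) (c : ℕ → ℕ → ℕ → ℝ)

/-- (i) In every fixed residue class the number of the elements of `S_n` in the `n`-th interval is
`c_n(q, a) + o(H_n / log³ H_n)`. -/
def Fixed : Prop := ∀ q a : ℕ, 1 ≤ q → a < q →
  Tendsto (fun n => (count (S n) (u n) (H n) q a - c n q a) / size (H n)) atTop (𝓝 0)

/-- (ii) The mean square law for all moduli up to `δ H_n / log³ H_n`. -/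
def Large : Prop :=
  ∀ ε : ℝ, 0 < ε → ∃ (P₀ : ℕ) (δ : ℝ), 1 ≤ P₀ ∧ 0 < δ ∧ ∀ P : ℕ, 1 ≤ P → P₀ ∣ P →
    ∀ᶠ n in atTop, ∀ Q : ℕ, 1 ≤ Q → (Q : ℝ) ≤ δ * size (H n) → deviation S u H c n P Q ≤ ε * size (H n) ^ 2

/-- (iii) The mean square law for one scale `Q(n)`, which tends to infinity with `n`. -/
def OneScale : Prop :=
  ∃ Q : ℕ → ℕ, Tendsto Q atTop atTop ∧ ∀ ε : ℝ, 0 < ε → ∃ P₀ : ℕ, 1 ≤ P₀ ∧
    ∀ P : ℕ, 1 ≤ P → P₀ ∣ P → ∀ᶠ n in atTop, deviation S u H c n P (Q n) ≤ ε * size (H n) ^ 2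

end Definitions

/-! ### proofs -/

section Proofs

open Finset Polynomial Pool.Agent.H90.SK Pool.Agent.Helper112
open Pool.Agent.Results.MP_485179_nt.AlmostPrimeProgressions (𝔖)

/-- the system `x + u, x + u + e, x + u + 6` -/
noncomputable def sysT (u e : ℕ) : Fin 3 → ℤ[X] := ![X + C (u : ℤ), X + C ((u + e : ℕ) : ℤ), X + C ((u + 6 : ℕ) : ℤ)]

theorem sysT_deg (u e : ℕ) (i : Fin 3) : (sysT u e i).natDegree = 1 := by
  unfold sysT
  fin_cases i
  · exact natDegree_X_add_C _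
  · exact natDegree_X_add_C _
  · exact natDegree_X_add_C _

theorem sysT_sum (u e : ℕ) : ∑ i, (sysT u e i).natDegree = 3 := by
  simp [sysT_deg]

theorem sysT_all (u e : ℕ) (Pr : ℤ → Prop) (n : ℕ) : (∀ i, Pr ((sysT u e i).eval (n : ℤ))) ↔
    Pr ((n + u : ℕ) : ℤ) ∧ Pr ((n + u + e : ℕ) : ℤ) ∧ Pr ((n + u + 6 : ℕ) : ℤ) := by
  have e0 : (sysT u e 0).eval (n : ℤ) = ((n + u : ℕ) : ℤ) := by
    show (X + C (u : ℤ)).eval (n : ℤ) = _
    rw [eval_add, eval_X, eval_C]; push_cast; ring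
  have e1 : (sysT u e 1).eval (n : ℤ) = ((n + u + e : ℕ) : ℤ) := by
    show (X + C ((u + e : ℕ) : ℤ)).eval (n : ℤ) = _
    rw [eval_add, eval_X, eval_C]; push_cast; ring
  have e2 : (sysT u e 2).eval (n : ℤ) = ((n + u + 6 : ℕ) : ℤ) := by
    show (X + C ((u + 6 : ℕ) : ℤ)).eval (n : ℤ) = _
    rw [eval_add, eval_X, eval_C]; push_cast; ring
  rw [← e0, ← e1, ← e2]
  exact Fin.forall_fin_succ.trans (and_congr Iff.rfl Fin.forall_fin_two)

theorem sysT_nofix (u e : ℕ) (he : e = 2 ∨ e = 4) : NoFix (sysT u e) := by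
  intro p hp
  -- three integers prime to `p`
  obtain ⟨v, h1, h2, h3⟩ : ∃ v : ℕ, ¬ p ∣ v ∧ ¬ p ∣ v + e ∧ ¬ p ∣ v + 6 := by
    have key : ∀ a b c : ℕ, a.Prime → b.Prime → c.Prime → p ≠ a → p ≠ b → p ≠ c → ¬ p ∣ a ∧ ¬ p ∣ b ∧ ¬ p ∣ c := by
      intro a b c ha hb hc n1 n2 n3
      exact ⟨fun h => n1 ((Nat.prime_dvd_prime_iff_eq hp ha).1 h), fun h => n2 ((Nat.prime_dvd_prime_iff_eq hp hb).1 h),
        fun h => n3 ((Nat.prime_dvd_prime_iff_eq hp hc).1 h)⟩
    rcases he with rfl | rfl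
    · by_cases h : p = 5 ∨ p = 7 ∨ p = 11
      · refine ⟨17, key 17 19 23 (by norm_num) (by norm_num) (by norm_num) ?_ ?_ ?_⟩ <;> omega
      · refine ⟨5, key 5 7 11 (by norm_num) (by norm_num) (by norm_num) ?_ ?_ ?_⟩ <;> omega
    · by_cases h : p = 7 ∨ p = 11 ∨ p = 13
      · refine ⟨37, key 37 41 43 (by norm_num) (by norm_num) (by norm_num) ?_ ?_ ?_⟩ <;> omega
      · refine ⟨7, key 7 11 13 (by norm_num) (by norm_num) (by norm_num) ?_ ?_ ?_⟩ <;> omega
  refine ⟨v + u * (p - 1), ?_⟩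
  have hp1 := hp.one_lt
  have e0 : v + u * (p - 1) + u = v + p * u := by
    obtain ⟨k, rfl⟩ : ∃ k, p = k + 1 := ⟨p - 1, by omega⟩
    simp
    ring
  rw [sysT_all u e (fun z => ¬ (p : ℤ) ∣ z)]
  rw [e0]
  refine ⟨?_, ?_, ?_⟩
  · rw [Int.natCast_dvd_natCast, Nat.dvd_add_left (dvd_mul_right p u)]
    exact h1
  · have : v + p * u + e = (v + e) + p * u := by ring
    rw [this, Int.natCast_dvd_natCast, Nat.dvd_add_left (dvd_mul_right p u)]
    exact h2
  · have : v + p * u + 6 = (v + 6) + p * u := by ring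
    rw [this, Int.natCast_dvd_natCast, Nat.dvd_add_left (dvd_mul_right p u)]
    exact h3

/-- the pattern -/
def patT (e : ℕ) : Finset ℕ := {0, e, 6}

theorem card_sys (u e p : ℕ) (hp : 0 < p) : (omP (sysT u e) p).card = (omT (patT e) p).card := by
  classical
  have h1 : ∀ n u : ℕ, (∃ i, (p : ℤ) ∣ (sysT u e i).eval (n : ℤ)) ↔ (p ∣ n + u ∨ p ∣ n + u + e ∨ p ∣ n + u + 6) := by
    intro n u
    have := sysT_all u e (fun z => ¬ (p : ℤ) ∣ z) n
    simp only [Int.natCast_dvd_natCast] at this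
    rw [← not_iff_not, not_exists, this]
    tauto
  have h2 : omP (sysT u e) p = (range p).filter (fun n => p ∣ n + u ∨ p ∣ n + u + e ∨ p ∣ n + u + 6) := by
    unfold omP
    apply filter_congr
    intro n _
    exact h1 n u
  have h3 : omT (patT e) p = (range p).filter (fun n => p ∣ n ∨ p ∣ n + e ∨ p ∣ n + 6) := by
    ext n
    rw [mem_filter, mem_range]
    constructor
    · intro hn
      have hn1 : n < p := by
        have := filter_subset _ _ hn
        exact mem_range.1 this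
      have hn2 : n % p ∈ omT (patT e) p := by rwa [Nat.mod_eq_of_lt hn1]
      rw [mem_omT _ hp] at hn2
      obtain ⟨t, ht, hd⟩ := hn2
      unfold patT at ht
      simp only [mem_insert, mem_singleton] at ht
      refine ⟨hn1, ?_⟩
      rcases ht with rfl | rfl | rfl
      · left; simpa using hd
      · right; left; exact hd
      · right; right; exact hd
    · rintro ⟨hn1, hn2⟩
      have : n % p ∈ omT (patT e) p := by
        rw [mem_omT _ hp]
        unfold patT
        rcases hn2 with h | h | h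
        · exact ⟨0, by simp, by simpa using h⟩
        · exact ⟨e, by simp, h⟩
        · exact ⟨6, by simp, h⟩
      rwa [Nat.mod_eq_of_lt hn1] at this
  set A : ℕ → Prop := fun x => p ∣ x ∨ p ∣ x + e ∨ p ∣ x + 6 with hA
  have hper : Function.Periodic A p := by
    intro x
    rw [hA]
    have e1 : x + p + e = x + e + p := by ring
    have e2 : x + p + 6 = x + 6 + p := by ring
    simp only [e1, e2, Nat.dvd_add_self_right]
  have h4 := Nat.filter_Ico_card_eq_of_periodic u p A hper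
  have h5 : ((range p).filter (fun n => p ∣ n + u ∨ p ∣ n + u + e ∨ p ∣ n + u + 6)).card =
      ((Ico u (u + p)).filter A).card := by
    apply card_bij (fun n _ => n + u)
    · intro n hn
      rw [mem_filter, mem_range] at hn
      rw [mem_filter, mem_Ico]
      exact ⟨⟨by omega, by omega⟩, hn.2⟩
    · intro a _ b _ hab
      omega
    · intro b hb
      rw [mem_filter, mem_Ico] at hb
      refine ⟨b - u, ?_, by omega⟩
      rw [mem_filter, mem_range]
      have : b - u + u = b := by omega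
      rw [this]
      exact ⟨by omega, hb.2⟩
  rw [h2, h5, h4, Nat.count_eq_card_filter_range, h3]

/-- the sieve product -/
theorem expT (e : ℕ) (he : e = 2 ∨ e = 4) : ∃ (C : ℝ) (H₀ : ℕ), 0 < C ∧ ∀ u H : ℕ, H₀ ≤ H →
    H * VV (omP (sysT u e)) H ≤ C * size H := by
  obtain ⟨C, hC, h⟩ := VV_le_S 3
  refine ⟨C * (𝔖 (patT e) + 1), 4 * 3 ^ 2 + 2, by have := S_nonneg (patT e); positivity, ?_⟩
  intro u H hH
  have h1 : VV (omP (sysT u e)) H = VV (omT (patT e)) H := by
    unfold VV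
    apply prod_congr rfl
    intro p hp
    rw [card_sys u e p (mem_PR.1 hp).1.pos]
  have h2 := h H hH (patT e) (by
    unfold patT
    rcases he with rfl | rfl <;> rfl)
  rw [h1]
  have hl : 0 < Real.log H ^ 3 := by
    have : 0 < Real.log H := Real.log_pos (by exact_mod_cast (by omega : 1 < H))
    positivity
  have hS := S_nonneg (patT e)
  unfold size
  calc (H : ℝ) * VV (omT (patT e)) H ≤ H * (C * 𝔖 (patT e) / Real.log H ^ 3) :=
        mul_le_mul_of_nonneg_left h2 (by positivity)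
    _ = C * 𝔖 (patT e) * (H / Real.log H ^ 3) := by ring
    _ ≤ C * (𝔖 (patT e) + 1) * (H / Real.log H ^ 3) := by
        apply mul_le_mul_of_nonneg_right _ (by positivity)
        nlinarith

open Pool.Agent.Results.MP_0bf1d2_nt (EveryNLargeModuli.count EveryNLargeModuli.relative)

/-- the shifted set -/
def shf (S : Set ℕ) (u : ℕ) : Set ℕ := {n | n + u ∈ S}

theorem count_shift (S : Set ℕ) (u H q a : ℕ) :
    count S u H q (a + u) = Pool.Agent.Results.MP_0bf1d2_nt.EveryNLargeModuli.count (shf S u) H q a := by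
  unfold count Pool.Agent.Results.MP_0bf1d2_nt.EveryNLargeModuli.count
  norm_cast
  symm
  apply Set.ncard_congr (fun n _ => n + u)
  · rintro n ⟨h1, h2, h3, h4⟩
    exact ⟨h1, by omega, by omega, h4.add_right u⟩
  · rintro a b _ _ h
    omega
  · rintro p ⟨h1, h2, h3, h4⟩
    have e : p - u + u = p := by omega
    refine ⟨p - u, ⟨?_, by omega, by omega, ?_⟩, e⟩
    · show p - u + u ∈ S
      rw [e]
      exact h1
    · apply Nat.ModEq.add_right_cancel' u
      rw [e]
      exact h4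

theorem count_mod (S : Set ℕ) (u H g a : ℕ) : count S u H g a = count S u H g (a % g) := by
  unfold count
  have : ∀ n : ℕ, n ≡ a [MOD g] ↔ n ≡ a % g [MOD g] := fun n =>
    ⟨fun h => h.trans (Nat.mod_modEq a g).symm, fun h => h.trans (Nat.mod_modEq a g)⟩
  simp only [this]

theorem count_congr {S : Set ℕ} {u H g a b : ℕ} (h : a ≡ b [MOD g]) : count S u H g a = count S u H g b := by
  rw [count_mod, count_mod S u H g b, h]

theorem sum_shift {q : ℕ} (u : ℕ) (G : ℕ → ℝ) (hG : ∀ a b, a ≡ b [MOD q] → G a = G b) :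
    ∑ a ∈ range q, G a = ∑ a ∈ range q, G (a + u) := by
  rcases Nat.eq_zero_or_pos q with rfl | hq
  · simp
  have h1 : ∀ a ∈ range q, G (a + u) = G ((a + u) % q) := fun a _ => hG _ _ (Nat.mod_modEq _ _).symm
  have hinj : Set.InjOn (fun a => (a + u) % q) (range q : Set ℕ) := by
    intro a ha b hb hab
    rw [coe_range, Set.mem_Iio] at ha hb
    have h2 : a + u ≡ b + u [MOD q] := hab
    exact (Nat.ModEq.add_right_cancel' u h2).eq_of_lt_of_lt ha hb
  have himg : (range q).image (fun a => (a + u) % q) = range q := by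
    apply eq_of_subset_of_card_le
    · intro x hx
      rw [mem_image] at hx
      obtain ⟨a, _, rfl⟩ := hx
      exact mem_range.2 (Nat.mod_lt _ hq)
    · rw [card_image_of_injOn hinj]
  rw [sum_congr rfl h1, ← himg, sum_image hinj, himg]

theorem relative_shift (S : Set ℕ) (u H P Q : ℕ) :
    relative S u H P Q = Pool.Agent.Results.MP_0bf1d2_nt.EveryNLargeModuli.relative (shf S u) H P Q := by
  unfold relative Pool.Agent.Results.MP_0bf1d2_nt.EveryNLargeModuli.relative
  apply sum_congr rfl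
  intro q _
  rw [sum_shift u]
  · apply sum_congr rfl
    intro a _
    rw [count_shift, count_shift]
  · intro a b hab
    rw [count_congr hab, count_congr (hab.of_dvd (Nat.gcd_dvd_left q P))]

theorem rel_e (e : ℕ) (he : e = 2 ∨ e = 4) : ∃ (C : ℝ) (H₀ : ℕ), 0 < C ∧ 2 ≤ H₀ ∧ ∀ u H : ℕ, H₀ ≤ H →
    ∀ S : Set ℕ, (∀ p ∈ S, p.Prime ∧ (p + e).Prime ∧ (p + 6).Prime) → ∀ K P : ℕ, 1 ≤ K →
      (∀ d, 1 ≤ d → d ≤ K → d ∣ P) → ∀ Q : ℕ, 1 ≤ Q →
        relative S u H P Q ≤ C * (size H ^ 2 / √K + Q * size H) := by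
  obtain ⟨C1, H₁, hC1, h1⟩ := expT e he
  obtain ⟨C2, x₀, hC2, hx₀, h2⟩ := pol_rel 3 (by norm_num)
  refine ⟨C2 * (C1 ^ 2 + C1), max x₀ H₁, by positivity, hx₀.trans (le_max_left _ _), ?_⟩
  intro u H hH S hS K P hK hKP Q hQ
  have h3 := h1 u H ((le_max_right _ _).trans hH)
  have h4 := h2 H ((le_max_left _ _).trans hH) 3 (sysT u e) (fun i => by rw [sysT_deg])
    (by rw [sysT_sum]) (sysT_nofix u e he)
    (Pool.Agent.Results.MP_0bf1d2_nt.EveryNLargeModuli.ind (shf S u)) (by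
      intro n hn
      have hnS : n + u ∈ S := by
        by_contra hcon
        apply hn
        unfold Pool.Agent.Results.MP_0bf1d2_nt.EveryNLargeModuli.ind
        rw [if_neg]
        exact hcon
      rw [sysT_all u e (fun z => z.natAbs.Prime)]
      simpa only [Int.natAbs_natCast] using hS _ hnS) (by
      intro n
      unfold Pool.Agent.Results.MP_0bf1d2_nt.EveryNLargeModuli.ind
      split_ifs <;> simp) K P hK hKP Q hQ
  rw [relative_shift, Pool.Agent.Results.MP_0bf1d2_nt.EveryNLargeModuli.relative_eq]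
  refine h4.trans ?_
  have hX0 : 0 ≤ (H : ℝ) * VV (omP (sysT u e)) H :=
    mul_nonneg (by positivity) (VV_pos (adm_omP (sysT u e) (sysT_nofix u e he) (sysT_sum u e).le) H).le
  have hK0 : (0 : ℝ) < √(K : ℝ) := Real.sqrt_pos.2 (by exact_mod_cast hK)
  have hs0 : 0 ≤ size H := by
    have : 0 ≤ C1 * size H := hX0.trans h3
    exact nonneg_of_mul_nonneg_right this hC1
  have t1 : ((H : ℝ) * VV (omP (sysT u e)) H) ^ 2 / √(K : ℝ) ≤ (C1 ^ 2 + C1) * (size H ^ 2 / √K) := by
    calc ((H : ℝ) * VV (omP (sysT u e)) H) ^ 2 / √(K : ℝ) ≤ (C1 * size H) ^ 2 / √(K : ℝ) :=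
          div_le_div_of_nonneg_right (pow_le_pow_left₀ hX0 h3 2) hK0.le
      _ = C1 ^ 2 * (size H ^ 2 / √K) := by ring
      _ ≤ _ := mul_le_mul_of_nonneg_right (by linarith) (by positivity)
  have t2 : (Q : ℝ) * ((H : ℝ) * VV (omP (sysT u e)) H) ≤ (C1 ^ 2 + C1) * (Q * size H) := by
    calc (Q : ℝ) * ((H : ℝ) * VV (omP (sysT u e)) H) ≤ Q * (C1 * size H) :=
          mul_le_mul_of_nonneg_left h3 (by positivity)
      _ = C1 * (Q * size H) := by ring
      _ ≤ _ := mul_le_mul_of_nonneg_right (by nlinarith) (by positivity)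
  calc C2 * (((H : ℝ) * VV (omP (sysT u e)) H) ^ 2 / √(K : ℝ) + Q * ((H : ℝ) * VV (omP (sysT u e)) H)) ≤
      C2 * ((C1 ^ 2 + C1) * (size H ^ 2 / √K) + (C1 ^ 2 + C1) * (Q * size H)) :=
        mul_le_mul_of_nonneg_left (add_le_add t1 t2) hC2.le
    _ = _ := by ring

open Classical in
theorem count_union {S A B : Set ℕ} (hAB : A ∪ B = S) (hd : Disjoint A B) (u H q a : ℕ) :
    count S u H q a = count A u H q a + count B u H q a := by
  unfold count
  norm_cast
  have fA : {p : ℕ | p ∈ A ∧ u < p ∧ p ≤ u + H ∧ p ≡ a [MOD q]}.Finite :=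
    (Set.finite_Iic (u + H)).subset (fun p hp => hp.2.2.1)
  have fB : {p : ℕ | p ∈ B ∧ u < p ∧ p ≤ u + H ∧ p ≡ a [MOD q]}.Finite :=
    (Set.finite_Iic (u + H)).subset (fun p hp => hp.2.2.1)
  have hdis : Disjoint {p : ℕ | p ∈ A ∧ u < p ∧ p ≤ u + H ∧ p ≡ a [MOD q]}
      {p : ℕ | p ∈ B ∧ u < p ∧ p ≤ u + H ∧ p ≡ a [MOD q]} := by
    rw [Set.disjoint_left] at hd ⊢
    rintro p ⟨h1, _⟩ ⟨h2, _⟩
    exact hd h1 h2
  rw [← Set.ncard_union_eq hdis fA fB]
  congr 1
  ext p
  simp only [Set.mem_union, Set.mem_ofPred_eq, ← hAB]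
  tauto

theorem relative_union {S A B : Set ℕ} (hAB : A ∪ B = S) (hd : Disjoint A B) (u H P Q : ℕ) :
    relative S u H P Q ≤ 2 * relative A u H P Q + 2 * relative B u H P Q := by
  unfold relative
  rw [mul_sum, mul_sum, ← sum_add_distrib]
  apply sum_le_sum
  intro q _
  rw [mul_sum, mul_sum, ← sum_add_distrib]
  apply sum_le_sum
  intro a _
  rw [count_union hAB hd, count_union hAB hd]
  nlinarith [sq_nonneg ((count A u H q a - (Nat.gcd q P / q : ℝ) * count A u H (Nat.gcd q P) a) -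
    (count B u H q a - (Nat.gcd q P / q : ℝ) * count B u H (Nat.gcd q P) a))]

/-- part (1) -/
theorem part_one (ε : ℝ) (hε : 0 < ε) : ∃ (P₀ H₀ : ℕ) (δ : ℝ), 1 ≤ P₀ ∧ 2 ≤ H₀ ∧ 0 < δ ∧
    ∀ S : Set ℕ, S ⊆ triplets → ∀ u H : ℕ, H₀ ≤ H → ∀ P : ℕ, 1 ≤ P → P₀ ∣ P → ∀ Q : ℕ, 1 ≤ Q →
      (Q : ℝ) ≤ δ * size H → relative S u H P Q ≤ ε * size H ^ 2 := by
  obtain ⟨C2, H2, hC2, hH2, h2⟩ := rel_e 2 (Or.inl rfl)
  obtain ⟨C4, H4, hC4, hH4, h4⟩ := rel_e 4 (Or.inr rfl)
  set C : ℝ := 2 * (C2 + C4) with hC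
  have hC0 : 0 < C := by positivity
  set K : ℕ := ⌈(2 * C / ε) ^ 2⌉₊ + 1 with hK
  have hK1 : 1 ≤ K := by omega
  have hK0 : (0 : ℝ) < K := by exact_mod_cast hK1
  have hKs : 2 * C / ε ≤ √(K : ℝ) := by
    apply Real.le_sqrt_of_sq_le
    rw [hK]
    push_cast
    linarith [Nat.le_ceil ((2 * C / ε) ^ 2)]
  have hsK : 0 < √(K : ℝ) := Real.sqrt_pos.2 hK0
  have hCK : C / √K ≤ ε / 2 := by
    rw [div_le_iff₀ hsK]
    have := mul_le_mul_of_nonneg_left hKs (show 0 ≤ ε / 2 by positivity)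
    calc C = ε / 2 * (2 * C / ε) := by field_simp
      _ ≤ _ := this
  refine ⟨K.factorial, max H2 H4, ε / (2 * C), Nat.factorial_pos K, hH2.trans (le_max_left _ _), by positivity, ?_⟩
  intro S hS u H hH P hP hPP Q hQ hQH
  have hKP : ∀ d, 1 ≤ d → d ≤ K → d ∣ P := fun d hd hdK => (Nat.dvd_factorial (by omega) hdK).trans hPP
  set A : Set ℕ := {p | p ∈ S ∧ (p + 2).Prime} with hA
  set B : Set ℕ := {p | p ∈ S ∧ ¬ (p + 2).Prime} with hB
  have hAB : A ∪ B = S := by
    ext p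
    simp only [hA, hB, Set.mem_union, Set.mem_ofPred_eq]
    tauto
  have hd : Disjoint A B := by
    rw [Set.disjoint_left]
    rintro p ⟨_, h⟩ ⟨_, h'⟩
    exact h' h
  have r2 := h2 u H ((le_max_left _ _).trans hH) A (by
    rintro p ⟨h1, h3⟩
    exact ⟨(hS h1).1, h3, (hS h1).2.1⟩) K P hK1 hKP Q hQ
  have r4 := h4 u H ((le_max_right _ _).trans hH) B (by
    rintro p ⟨h1, h3⟩
    refine ⟨(hS h1).1, ?_, (hS h1).2.1⟩
    rcases (hS h1).2.2 with h | h
    · exact absurd h h3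
    · exact h) K P hK1 hKP Q hQ
  have hH2' : 2 ≤ H := (hH2.trans (le_max_left _ _)).trans hH
  have hs0 : 0 < size H := by
    unfold size
    have h5 : 0 < Real.log H := Real.log_pos (by exact_mod_cast (by omega : 1 < H))
    have h6 : (0 : ℝ) < H := by exact_mod_cast (by omega : 0 < H)
    positivity
  have h7 := relative_union hAB hd u H P Q
  have h8 : relative S u H P Q ≤ C * (size H ^ 2 / √K + Q * size H) := by
    calc relative S u H P Q ≤ 2 * relative A u H P Q + 2 * relative B u H P Q := h7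
      _ ≤ 2 * (C2 * (size H ^ 2 / √K + Q * size H)) + 2 * (C4 * (size H ^ 2 / √K + Q * size H)) := by linarith
      _ = _ := by rw [hC]; ring
  refine h8.trans ?_
  have t1 : C * (size H ^ 2 / √K) ≤ ε / 2 * size H ^ 2 := by
    calc C * (size H ^ 2 / √K) = C / √K * size H ^ 2 := by ring
      _ ≤ _ := mul_le_mul_of_nonneg_right hCK (by positivity)
  have t2 : C * (Q * size H) ≤ ε / 2 * size H ^ 2 := by
    calc C * (Q * size H) ≤ C * (ε / (2 * C) * size H * size H) := by
          apply mul_le_mul_of_nonneg_left _ hC0.le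
          exact mul_le_mul_of_nonneg_right hQH hs0.le
      _ = _ := by field_simp
  linarith

theorem count_split {q₀ q : ℕ} (h1 : q₀ ∣ q) (hq : 1 ≤ q) (S : Set ℕ) (u H a₀ : ℕ) :
    count S u H q₀ a₀ = ∑ a ∈ (range q).filter (fun a => a ≡ a₀ [MOD q₀]), count S u H q a := by
  classical
  have hc : ∀ q a, count S u H q a = (((Icc (u + 1) (u + H)).filter (fun n => n ∈ S ∧ n ≡ a [MOD q])).card : ℝ) := by
    intro q a
    unfold count
    rw [← Set.ncard_coe_finset]
    congr 2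
    ext n
    simp only [coe_filter, mem_Icc, Set.mem_ofPred_eq]
    constructor
    · rintro ⟨h1, h2, h3, h4⟩
      exact ⟨⟨by omega, h3⟩, h1, h4⟩
    · rintro ⟨⟨h1, h2⟩, h3, h4⟩
      exact ⟨h3, by omega, h2, h4⟩
  simp only [hc]
  rw [← Nat.cast_sum]
  congr 1
  rw [← card_biUnion]
  · congr 1
    ext n
    simp only [mem_filter, mem_biUnion, mem_range]
    constructor
    · rintro ⟨hn, hS, hmod⟩
      refine ⟨n % q, ⟨Nat.mod_lt _ (by omega), ?_⟩, hn, hS, (Nat.mod_modEq n q).symm⟩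
      exact ((Nat.mod_modEq n q).of_dvd h1).trans hmod
    · rintro ⟨a, ⟨_, ha⟩, hn, hS, hmod⟩
      exact ⟨hn, hS, (hmod.of_dvd h1).trans ha⟩
  · intro a ha b hb hab
    rw [Function.onFun, disjoint_left]
    intro n hn hn'
    rw [mem_filter] at hn hn'
    rw [mem_coe, mem_filter, mem_range] at ha hb
    apply hab
    have h5 : a ≡ b [MOD q] := hn.2.2.symm.trans hn'.2.2
    exact h5.eq_of_lt_of_lt ha.1 hb.1

theorem size_tendsto : Tendsto size atTop atTop := by
  have h1 : Tendsto (fun x : ℝ => Real.log x ^ 3 / x) atTop (𝓝 0) := by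
    have := Real.isLittleO_pow_log_id_atTop (n := 3)
    exact this.tendsto_div_nhds_zero
  have h2 : Tendsto (fun x : ℝ => Real.log x ^ 3 / x) atTop (𝓝[>] 0) := by
    rw [tendsto_nhdsWithin_iff]
    refine ⟨h1, ?_⟩
    filter_upwards [eventually_gt_atTop 1] with x hx
    rw [Set.mem_Ioi]
    have := Real.log_pos hx
    positivity
  have h3 : Tendsto (fun x : ℝ => (Real.log x ^ 3 / x)⁻¹) atTop atTop := tendsto_inv_nhdsGT_zero.comp h2
  have h4 : Tendsto (fun x : ℕ => (Real.log (x : ℝ) ^ 3 / (x : ℝ))⁻¹) atTop atTop :=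
    h3.comp tendsto_natCast_atTop_atTop
  refine h4.congr fun x => ?_
  unfold size
  rw [inv_div]

end Proofs

/-- **Prime triplets in all intervals, in residue classes to large moduli.**

(1) For all `ε > 0` there are `P₀`, `H₀` and `δ > 0` such that for EVERY set `S` of first elements of prime triplets,
ALL `u` and `H ≥ H₀`, every multiple `P` of `P₀` and all `1 ≤ Q ≤ δ H / log³ H`, the sum over `Q ≤ q < 2 Q` and over
all `a` modulo `q` of the squares of `#S(u, u + H; q, a) - (g / q) #S(u, u + H; g, a)`, `g = gcd(q, P)`, is at most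
`ε (H / log³ H)²`.

(2) For all sequences of intervals `(u_n, u_n + H_n]`, `H_n → ∞`, all sets `S_n` of first elements of prime triplets
(for instance all) and all main terms `c_n(q, a)` which are consistent for each `n` the following are equivalent:
(i) the law in all fixed residue classes, up to `o(H_n / log³ H_n)`; (ii) the mean square law for the moduli up to
`δ H_n / log³ H_n`; (iii) the mean square law at one scale `Q(n)` which tends to infinity. -/
theorem result :
    (∀ ε : ℝ, 0 < ε → ∃ (P₀ H₀ : ℕ) (δ : ℝ), 1 ≤ P₀ ∧ 2 ≤ H₀ ∧ 0 < δ ∧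
      ∀ S : Set ℕ, S ⊆ triplets → ∀ u H : ℕ, H₀ ≤ H → ∀ P : ℕ, 1 ≤ P → P₀ ∣ P → ∀ Q : ℕ, 1 ≤ Q →
        (Q : ℝ) ≤ δ * size H → relative S u H P Q ≤ ε * size H ^ 2) ∧
    ∀ (S : ℕ → Set ℕ) (u H : ℕ → ℕ), (∀ n, S n ⊆ triplets) → Tendsto H atTop atTop →
      ∀ c : ℕ → ℕ → ℕ → ℝ, (∀ n, Consistent (c n)) →
        List.TFAE [Fixed S u H c, Large S u H c, OneScale S u H c] := by
  refine ⟨part_one, ?_⟩
  intro S u H hS hH c hc
  have hE : Tendsto (fun n => size (H n)) atTop atTop := size_tendsto.comp hH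
  have hmod : ∀ n g a, count (S n) (u n) (H n) g a = count (S n) (u n) (H n) g (a % g) :=
    fun n g a => count_mod _ _ _ _ _
  have hsplit : ∀ n q₀ q a₀, q₀ ∣ q → 1 ≤ q → count (S n) (u n) (H n) q₀ a₀ =
      ∑ a ∈ (Finset.range q).filter (fun a => a ≡ a₀ [MOD q₀]), count (S n) (u n) (H n) q a :=
    fun n q₀ q a₀ h1 h2 => count_split h1 h2 _ _ _ _
  have hmn : ∀ n q₀ q a₀, 1 ≤ q → q₀ ∣ q → a₀ < q₀ →
      c n q₀ a₀ = ∑ b ∈ (Finset.range q).filter (fun b => b ≡ a₀ [MOD q₀]), c n q b :=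
    fun n q₀ q a₀ h1 h2 h3 => hc n q₀ q a₀ h1 h2 h3
  have hrel : ∀ ε : ℝ, 0 < ε → ∃ (P₀ : ℕ) (δ : ℝ), 1 ≤ P₀ ∧ 0 < δ ∧ ∀ᶠ n in atTop,
      ∀ P : ℕ, 1 ≤ P → P₀ ∣ P → ∀ Q : ℕ, 1 ≤ Q → (Q : ℝ) ≤ δ * size (H n) →
        Pool.Agent.H90.SK.relT (count (S n) (u n) (H n)) P Q ≤ ε * size (H n) ^ 2 := by
    intro ε hε
    obtain ⟨P₀, H₀, δ, hP₀, _, hδ, h⟩ := part_one ε hε
    refine ⟨P₀, δ, hP₀, hδ, ?_⟩
    filter_upwards [hH.eventually_ge_atTop H₀] with n hn P hP hPP Q hQ hQH
    exact h (S n) (hS n) (u n) (H n) hn P hP hPP Q hQ hQH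
  tfae_have 1 → 2 := fun h => Pool.Agent.H90.SK.tf_large (cnt := fun n => count (S n) (u n) (H n)) (mn := c)
    hE hmod hrel h
  tfae_have 2 → 3 := fun h => Pool.Agent.H90.SK.tf_one (cnt := fun n => count (S n) (u n) (H n)) (mn := c) hE h
  tfae_have 3 → 1 := fun h => Pool.Agent.H90.SK.tf_fixed (cnt := fun n => count (S n) (u n) (H n)) (mn := c)
    hE hsplit hmn h
  tfae_finish

end Pool.Agent.Results.MP_dddec0_nt.EveryIntervalLargeModuli
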