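import Pool.Agent.H41.DT.Gen

/-!
# Prime triplets in random models with local dependence

`E n` is the event that `n` starts a triplet, of probability of the order `1 / log ^ 3 n`; the events up to
`n` are independent of those after `n + d n`.
-/

set_option autoImplicit false

namespace Pool.Agent.Results.MP_dddec0_nt.RangeOfDependence

open MeasureTheory Filter Topology ProbabilityTheory
open Pool.Agent.H41.LD (RangeDep)
open Pool.Agent.H41.DT

/-- The sharp dichotomy. -/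
theorem result (d : ℕ → ℕ) (hd : Monotone d) :
    ((∀ (Ω : Type) [MeasurableSpace Ω] (P : Measure Ω) [IsProbabilityMeasure P] (E : ℕ → Set Ω),
      RangeDep P E d →
      (∃ c : ℝ, 0 < c ∧ ∀ᶠ n : ℕ in atTop, c * (1 / Real.log ((n : ℝ) + 3) ^ 3) ≤ P.real (E n)) →
      ∀ᵐ ω ∂P, {n | ω ∈ E n}.Infinite) ↔
        ¬ Summable fun n : ℕ => 1 / Real.log ((n : ℝ) + 3) ^ 3 / (1 + (d n : ℝ))) ∧
    ((Summable fun n : ℕ => 1 / Real.log ((n : ℝ) + 3) ^ 3 / (1 + (d n : ℝ))) →
      ∃ (Ω : Type) (_ : MeasurableSpace Ω) (P : Measure Ω) (_ : IsProbabilityMeasure P)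
        (E : ℕ → Set Ω), RangeDep P E d ∧
        (∀ n : ℕ, P.real (E n) = 1 / Real.log ((n : ℝ) + 3) ^ 3) ∧
        ∀ᵐ ω ∂P, {n | ω ∈ E n}.Finite) := by
  have hb := fun hs => gen_b hd tp_anti tp_nonneg tp_le tp_two hs
  refine ⟨⟨fun h hs => ?_, fun h Ω _ P _ E hR hP => ?_⟩, hb⟩
  · obtain ⟨Ω, _, P, _, E, hR, hP, hfin⟩ := hb hs
    have hinf := h Ω P E hR ⟨1, one_pos, Eventually.of_forall fun n => by
      rw [one_mul, hP n]; rfl⟩
    obtain ⟨ω, h1, h2⟩ := (hinf.and hfin).exists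
    exact h1 h2
  · obtain ⟨c, hc, hP⟩ := hP
    exact gen_a hd tp_anti tp_nonneg h hc hR hP

end Pool.Agent.Results.MP_dddec0_nt.RangeOfDependence
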