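import Pool.Agent.H73.KT.Tri
import Pool.Agent.H73.KZ.Sys2
import Pool.Agent.H73.KP.Psn

/-!
# The prime triplets are independent of the zeros of the zeta function and of the laws of all other constellations

A system of generalised primes (Beurling primes) is a sequence `1 < q 0 < q 1 < ...` of real numbers; its generalised
integers are the products `gint q n = ∏ q (k - 1)` over the prime factors of `n` (with multiplicity, the factor being the
`k`-th prime number), one for every `n ≥ 1`, counted with multiplicity; for `q = 2, 3, 5, ...` one has `gint q n = n`.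

The theorem: prescribe the zeros `1 / 2 ± i γ k` of the zeta function in `Re s > 1 / 3` with their multiplicities (any sequence
with `O((T + 1) ^ ε)` terms in every window `[T, T + 1]`; if the Riemann hypothesis holds, for instance the ordinates of the
zeros of the Riemann zeta function), and constants `c D` for the patterns `D` (finite sets of natural numbers with `0 ∈ D`,
`|D| ≥ 2`), for instance the constants of Hardy and Littlewood. There are generalised primes with these zeros, with the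
analogues of the Riemann hypothesis and of the Lindelöf hypothesis, whose number up to `x` is given by the explicit
formula (`explicit γ x`, a function of the zeros only) with the error `O(x ^ ε)`, for which the number of the `D`-tuples up to
`x` is `c D ∫_2^x du / (log u) ^ |D| + O(x ^ (1 / 2 + ε))` for every pattern `D` that contains no triplet `t, t + 2, t + 6` or
`t, t + 4, t + 6`, in particular for the twin primes, the cousin primes and the sexy primes, and in which the triplets
of either type have a prescribed law: any `f = o(1 / log)` for their frequency among the primes, for instance the law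
of Hardy and Littlewood with any constant; or there are only finitely many of them; and the number of the primes in
`(x, x + l log x]` has in the limit the Poisson distribution with mean `l`. So these hypotheses, the Poisson law and the laws
of all other constellations decide neither the infinitude of the triplets nor their constants.

Proof. The density `(main term - ∑ 2 cos (γ k log u) / √u) / log u`, where the zero `γ k` enters at `start γ k`, is positive,
and the integral of `u ^ (-s)` against it continues with the prescribed logarithmic singularities (`Pool.Agent.H49.BZ`, helper49). Cut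
`(1, ∞)` into blocks of slowly growing masses `a b + 1` with respect to this density; the block gets `a b + 1` points: a random
pattern `D ⊆ [0, a b]` (or none) placed at a random position and wrapped around, and further points at large distances. Each
point is distributed with the density, whatever the pattern; the probabilities of the patterns solve a triangular system.
The method of conditional expectations for countably many tests (the exponential moments of the twisted sums
`∑_{q ≤ x} q ^ (-i m)` and of the numbers of all patterns), outside null sets that would create integer distances between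
neighbouring blocks, gives the sequence (`Pool.Agent.H73.KZ`, with helper87, helper93, helper82). Most blocks get no pattern but a rotated and
scaled copy of a finite set with binomially distributed numbers of points in its intervals; this gives the Poisson law
(`Pool.Agent.H73.KP`, with helper34, helper49, helper82, helper83, helper87, helper93).
-/

set_option autoImplicit false

open Filter Topology MeasureTheory Complex

namespace Pool.Agent.Results.MP_dddec0_nt.TripletsIndependent

open Pool.Agent.H49.BP (gint)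

/-- The number of generalised primes up to `x`. -/
noncomputable def primeCount (q : ℕ → ℝ) (x : ℝ) : ℕ := {j : ℕ | q j ≤ x}.ncard

/-- The number of generalised integers up to `x`, with multiplicity. -/
noncomputable def intCount (q : ℕ → ℝ) (x : ℝ) : ℕ := {n : ℕ | 1 ≤ n ∧ gint q n ≤ x}.ncard

/-- The number of the generalised primes `p ≤ x` such that `p + d` is a generalised prime for every `d ∈ D`. -/
noncomputable def tupleCount (q : ℕ → ℝ) (D : Finset ℕ) (x : ℝ) : ℕ :=
  {n : ℕ | q n ≤ x ∧ ∀ d ∈ D, ∃ k, q k = q n + d}.ncard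

/-- Every window `[T, T + 1]`, `T ≥ 0`, contains at most `C (T + 1) ^ ε` terms of the sequence, for every `ε > 0`, with a
constant `C` which depends on `ε`. -/
def Windows (γ : ℕ → ℝ) : Prop :=
  ∀ ε : ℝ, 0 < ε → ∃ C : ℝ, ∀ T : ℝ, 0 ≤ T → ∀ S : Finset ℕ,
    (∀ k ∈ S, T ≤ γ k ∧ γ k ≤ T + 1) → (S.card : ℝ) ≤ C * (T + 1) ^ ε

/-- The generalised primes `q` have the zeta function `Z s / (s - 1)` and satisfy the analogues of the Riemann hypothesis and of
the Lindelöf hypothesis: they increase strictly from `q 0 > 1`; their number up to `x` is `∫_2^x du / log u + O(x ^ (1 / 2 + ε))`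
and the number of the generalised integers up to `x` is `ρ x + O(x ^ (1 / 2 + ε))` for every `ε > 0`, with a `ρ > 0`; the
function `Z` is holomorphic in `Re s > 1 / 3` and `∑ (gint q n) ^ (-s) = Z s / (s - 1)` for `Re s > 1`; in `Re s > 1 / 2` one has
`Z s = s * exp (G s)` with a holomorphic function `G` that is at most `C √(log (|Im s| + 3))` for `Re s ≥ σ`, for every `σ > 1 / 2`. -/
def RHSystem (q : ℕ → ℝ) (Z : ℂ → ℂ) : Prop :=
  StrictMono q ∧ 1 < q 0 ∧
    (∀ ε : ℝ, 0 < ε → ∃ C : ℝ, ∀ x : ℝ, 2 ≤ x →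
      |(primeCount q x : ℝ) - ∫ u in (2 : ℝ)..x, (Real.log u)⁻¹| ≤ C * x ^ (1 / 2 + ε)) ∧
    (∃ ρ : ℝ, 0 < ρ ∧ ∀ ε : ℝ, 0 < ε → ∃ C : ℝ, ∀ x : ℝ, 1 ≤ x →
      |(intCount q x : ℝ) - ρ * x| ≤ C * x ^ (1 / 2 + ε)) ∧
    (∀ s : ℂ, 1 / 3 < s.re → AnalyticAt ℂ Z s) ∧
    (∀ s : ℂ, 1 < s.re → ∑' n : ℕ, ((gint q (n + 1) : ℝ) : ℂ) ^ (-s) = Z s / (s - 1)) ∧
    ∃ G : ℂ → ℂ, DifferentiableOn ℂ G {s | 1 / 2 < s.re} ∧
      (∀ s : ℂ, 1 / 2 < s.re → Z s = s * Complex.exp (G s)) ∧
      ∀ σ : ℝ, 1 / 2 < σ → ∃ C : ℝ, ∀ s : ℂ, σ ≤ s.re → ‖G s‖ ≤ C * √(Real.log (|s.im| + 3))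

/-- The point from which on the zero of height `γ k` is felt: `exp (π N / (γ k))` with the least natural number `N` such that
it is at least `(8 k + 9) ^ 2 * (1 + γ k)`. -/
noncomputable def start (γ : ℕ → ℝ) (k : ℕ) : ℝ :=
  Real.exp (Real.pi * ⌈γ k * (2 * Real.log (8 * k + 9) + Real.log (1 + γ k)) / Real.pi⌉₊ / γ k)

/-- The right side of the explicit formula: the integral from `1` to `x` of
`(1 - 1 / u - (u ^ (-1 / 2) - 1 / u) / 2 - ∑ 2 cos (γ k log u) / √u) / log u`, the sum over the `k` with `start γ k ≤ u`. -/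
noncomputable def explicit (γ : ℕ → ℝ) (x : ℝ) : ℝ :=
  ∫ u in (1 : ℝ)..x, (((1 - u⁻¹) - 1 / 2 * ((√u)⁻¹ - u⁻¹)) / Real.log u -
    ∑' k, if start γ k ≤ u then 2 * Real.cos (γ k * Real.log u) / (√u * Real.log u) else 0)

/-- The zeros of `Z` in the half-plane `Re s > 1 / 3` are the points `1 / 2 ± i γ k`, and the order of such a zero is the number
of the `k` with this ordinate. -/
def HasZeros (Z : ℂ → ℂ) (γ : ℕ → ℝ) : Prop :=
  ∀ s : ℂ, 1 / 3 < s.re → analyticOrderAt Z s = {k | s = 1 / 2 + γ k * I ∨ s = 1 / 2 - γ k * I}.encard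

/-- The number of generalised primes in `(x, x + y]`. -/
noncomputable def windowCount (q : ℕ → ℝ) (x y : ℝ) : ℕ := {n : ℕ | x < q n ∧ q n ≤ x + y}.ncard

/-- The number of the generalised primes in `(x, x + l log x]` has the Poisson distribution with mean `l`: the measure of the
set of the `x ∈ [2, X]` with exactly `k` primes in `(x, x + l log x]`, divided by `X`, tends to `exp (-l) l ^ k / k!`. -/
def PoissonLaw (q : ℕ → ℝ) : Prop := ∀ l : ℝ, 0 < l → ∀ k : ℕ,
  Tendsto (fun X : ℝ => volume.real {x : ℝ | 2 ≤ x ∧ x ≤ X ∧ windowCount q x (l * Real.log x) = k} / X) atTop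
    (𝓝 (Real.exp (-l) * l ^ k / (k.factorial : ℝ)))

/-- The pattern `D` contains a translate of `{0, 2, 6}` or of `{0, 4, 6}`. -/
def ContainsTriplet (D : Finset ℕ) : Prop := ∃ t : ℕ, t ∈ D ∧ (t + 2 ∈ D ∨ t + 4 ∈ D) ∧ t + 6 ∈ D

theorem bad_iff {D : Finset ℕ} : Pool.Agent.H73.KT.bad D → ContainsTriplet D := by
  rintro (h | h)
  · obtain ⟨t, _, h1⟩ := Pool.Agent.H73.KT.mult_ne h
    exact ⟨t, by simpa using h1 0 (by decide), Or.inl (h1 2 (by decide)), h1 6 (by decide)⟩
  · obtain ⟨t, _, h1⟩ := Pool.Agent.H73.KT.mult_ne h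
    exact ⟨t, by simpa using h1 0 (by decide), Or.inr (h1 4 (by decide)), h1 6 (by decide)⟩

/-- Let `0 < γ 0 ≤ γ 1 ≤ ...` be any sequence with at most `O((T + 1) ^ ε)` terms in every window `[T, T + 1]`. Let `c D ≥ 0` (`c D' = 0`
if `D'` contains a translate of a `D` with `c D = 0`), and `c {0, 2}`, `c {0, 4}`, `c {0, 6} > 0`; for instance
the constants of Hardy and Littlewood. For all measurable, bounded `f₂, f₄ ≥ 0` with `f₂ u log u → 0`, `f₄ u log u → 0` there are
generalised primes with the analogues of the Riemann hypothesis and of the Lindelöf hypothesis, with the zeros `1 / 2 ± i γ k` of the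
zeta function in `Re s > 1 / 3`, and with the explicit formula with the error `O(x ^ ε)`, such that, for every `ε > 0`,
the number of the `D`-tuples up to `x` is `c D ∫_2^x du / (log u) ^ |D| + O(x ^ (1 / 2 + ε))` for every pattern `D` that contains no
triplet, the number of the triplets `(p, p + 2, p + 6)` is `∫_2^x f₂(u) du / log u + O(x ^ (1 / 2 + ε))`, the number of the triplets
`(p, p + 4, p + 6)` is `∫_2^x f₄(u) du / log u + O(x ^ (1 / 2 + ε))`, and the numbers of the generalised primes in the intervals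
`(x, x + l log x]` have the Poisson distribution with mean `l` in the limit; if `f₂` (or `f₄`) vanishes for large `u` then these triplets are finitely
many. -/
theorem result (γ : ℕ → ℝ) (hpos : ∀ k, 0 < γ k) (hmono : Monotone γ) (hwin : Windows γ)
    (c : Finset ℕ → ℝ) (hc : ∀ D, 0 ≤ c D)
    (hc0 : ∀ D D' : Finset ℕ, 0 ∈ D → 2 ≤ D.card → 0 ∈ D' → (∃ t, ∀ d ∈ D, t + d ∈ D') → c D = 0 → c D' = 0)
    (h2 : 0 < c {0, 2}) (h4 : 0 < c {0, 4}) (h6 : 0 < c {0, 6}) (f₂ f₄ : ℝ → ℝ) (m₂ : Measurable f₂) (m₄ : Measurable f₄)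
    (p₂ : ∀ u, 0 ≤ f₂ u) (p₄ : ∀ u, 0 ≤ f₄ u) (b₂ : ∃ B : ℝ, ∀ u, f₂ u ≤ B) (b₄ : ∃ B : ℝ, ∀ u, f₄ u ≤ B)
    (l₂ : Tendsto (fun u => f₂ u * Real.log u) atTop (𝓝 0)) (l₄ : Tendsto (fun u => f₄ u * Real.log u) atTop (𝓝 0)) :
    ∃ (q : ℕ → ℝ) (Z : ℂ → ℂ), RHSystem q Z ∧ HasZeros Z γ ∧
      (∀ ε : ℝ, 0 < ε → ∃ C : ℝ, ∀ x : ℝ, 1 ≤ x → |(primeCount q x : ℝ) - explicit γ x| ≤ C * x ^ ε) ∧
      (∀ D : Finset ℕ, 0 ∈ D → 2 ≤ D.card → ¬ ContainsTriplet D → ∀ ε : ℝ, 0 < ε → ∃ C : ℝ, ∀ x : ℝ, 2 ≤ x →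
        |(tupleCount q D x : ℝ) - c D * ∫ u in (2 : ℝ)..x, 1 / (Real.log u) ^ D.card| ≤ C * x ^ (1 / 2 + ε)) ∧
      (∀ ε : ℝ, 0 < ε → ∃ C : ℝ, ∀ x : ℝ, 2 ≤ x →
        |(tupleCount q {0, 2, 6} x : ℝ) - ∫ u in (2 : ℝ)..x, f₂ u / Real.log u| ≤ C * x ^ (1 / 2 + ε)) ∧
      (∀ ε : ℝ, 0 < ε → ∃ C : ℝ, ∀ x : ℝ, 2 ≤ x →
        |(tupleCount q {0, 4, 6} x : ℝ) - ∫ u in (2 : ℝ)..x, f₄ u / Real.log u| ≤ C * x ^ (1 / 2 + ε)) ∧
      PoissonLaw q ∧
      ((∀ᶠ u in atTop, f₂ u = 0) → {n : ℕ | ∀ d ∈ ({0, 2, 6} : Finset ℕ), ∃ k, q k = q n + d}.Finite) ∧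
      ((∀ᶠ u in atTop, f₄ u = 0) → {n : ℕ | ∀ d ∈ ({0, 4, 6} : Finset ℕ), ∃ k, q k = q n + d}.Finite) := by
  have hlaws := Pool.Agent.H73.KT.nt_laws hc (fun D D' hD hD2 hD' hm =>
    hc0 D D' hD hD2 hD' (by
      obtain ⟨t, _, h⟩ := Pool.Agent.H73.KT.mult_ne hm
      exact ⟨t, h⟩)) h2 h4 h6 m₂ m₄ p₂ p₄ b₂ b₄ l₂ l₄
  let _ : Pool.Agent.H49.BZ.Dens := Pool.Agent.H49.BZ.dens γ hpos
  have _ : Pool.Agent.H73.KZ.DV := Pool.Agent.H49.BZ.dens_DV hpos
  obtain ⟨a, S, q, Dd, v, hst, hD, hcount, hlaw, hloc, hv, hY, hbad⟩ :=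
    Pool.Agent.H73.KP.realise3 hlaws (fun _ => 0)
  have hq := hst.2.2.2.1
  obtain ⟨⟨Z, hZ1, hZ2⟩, hex⟩ :=
    Pool.Agent.H73.KZ.base_system hpos hmono hwin hq.1 hq.2.1 hq.2.2.1 hD hcount
  have hpo : PoissonLaw q := Pool.Agent.H73.KP.poisson_blocks
    (fun ε hε => Pool.Agent.H73.KP.nd_lim1 hpos hmono hwin hε) hst.1 hst.2.2.1 hq hv hY hbad
  have hz2 := Pool.Agent.H73.KT.zero_T2
  have hz4 := Pool.Agent.H73.KT.zero_T4
  have hc2 : 2 ≤ Pool.Agent.H73.KT.T2.card := by decide
  have hc4 : 2 ≤ Pool.Agent.H73.KT.T4.card := by decide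
  refine ⟨q, Z, hZ1, hZ2, hex, fun D hD hD2 hDt ε hε => ?_, fun ε hε => ?_, fun ε hε => ?_, hpo, fun hf => ?_,
    fun hf => ?_⟩
  · obtain ⟨C, hC⟩ := hlaw D hD hD2 ε hε
    refine ⟨C, fun x hx => ?_⟩
    rw [← Pool.Agent.H73.KT.nt_int (f2 := f₂) (f4 := f₄) hD2 (fun h => hDt (bad_iff h)) hx]
    exact hC x hx
  · have h := hlaw Pool.Agent.H73.KT.T2 hz2 hc2 ε hε
    rw [Pool.Agent.H73.KT.nt_T2] at h
    exact h
  · have h := hlaw Pool.Agent.H73.KT.T4 hz4 hc4 ε hε
    rw [Pool.Agent.H73.KT.nt_T4] at h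
    exact h
  · have h := hloc Pool.Agent.H73.KT.T2 hz2 hc2
    rw [Pool.Agent.H73.KT.nt_T2] at h
    exact Pool.Agent.H73.KT.finite_of hq.2.1 h hf
  · have h := hloc Pool.Agent.H73.KT.T4 hz4 hc4
    rw [Pool.Agent.H73.KT.nt_T4] at h
    exact Pool.Agent.H73.KT.finite_of hq.2.1 h hf

end Pool.Agent.Results.MP_dddec0_nt.TripletsIndependent
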